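import Mathlib
import Pool.Agent.Helper48_LPY.Stmts
import Pool.Agent.Helper48_LPY.Basic

set_option autoImplicit false

namespace Pool.Agent.LPY.H32

open Pool.Agent.LAX Pool.Agent.LPY

/-- Hall's theorem for the relation `H ∪ diag L`. -/
theorem hallPI {ν : Type} [Finite ν] (S L : Set ν) (H : Set (ν × ν))
    (h : ∀ A ⊆ S, A.ncard ≤ ({y | ∃ x ∈ A, (x, y) ∈ H} ∪ (A ∩ L)).ncard) :
    ∃ M : Set (ν × ν), PI M ∧ S ⊆ dom M ∧ ∀ z ∈ M, z ∈ H ∨ (z.1 = z.2 ∧ z.1 ∈ L) := by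
  classical
  have : Fintype ν := Fintype.ofFinite ν
  let t : {x // x ∈ S} → Finset ν := fun x =>
    Finset.univ.filter fun y => (x.1, y) ∈ H ∨ (x.1 = y ∧ x.1 ∈ L)
  have hall := (Finset.all_card_le_biUnion_card_iff_exists_injective t).mp (by
    intro s
    have h1 := h (Subtype.val '' (s : Set {x // x ∈ S})) (by
      rintro _ ⟨x, -, rfl⟩
      exact x.2)
    rw [Set.ncard_image_of_injective _ Subtype.val_injective, Set.ncard_coe_finset] at h1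
    refine le_trans h1 ?_
    rw [← Set.ncard_coe_finset]
    refine Set.ncard_le_ncard ?_ (Set.toFinite _)
    intro y hy
    simp only [Finset.coe_biUnion, Set.mem_iUnion, Finset.mem_coe, t, Finset.mem_filter,
      Finset.mem_univ, true_and]
    rcases hy with ⟨x, ⟨x', hx', rfl⟩, hxy⟩ | ⟨⟨x', hx', rfl⟩, hL⟩
    · exact ⟨x', hx', Or.inl hxy⟩
    · exact ⟨x', hx', Or.inr ⟨rfl, hL⟩⟩)
  obtain ⟨f, hf, hft⟩ := hall
  refine ⟨{z | ∃ x : {x // x ∈ S}, z = (x.1, f x)}, ⟨?_, ?_⟩, ?_, ?_⟩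
  · rintro x y y' ⟨u, hu⟩ ⟨u', hu'⟩
    simp only [Prod.mk.injEq] at hu hu'
    have : u = u' := Subtype.ext (hu.1.symm.trans hu'.1)
    subst this
    rw [hu.2, hu'.2]
  · rintro x x' y ⟨u, hu⟩ ⟨u', hu'⟩
    simp only [Prod.mk.injEq] at hu hu'
    have : u = u' := hf (hu.2.symm.trans hu'.2)
    subst this
    rw [hu.1, hu'.1]
  · intro x hx
    exact ⟨f ⟨x, hx⟩, ⟨x, hx⟩, rfl⟩
  · rintro _ ⟨x, rfl⟩
    have := hft x
    simp only [t, Finset.mem_filter, Finset.mem_univ, true_and] at this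
    rcases this with h | ⟨h1, h2⟩
    · exact Or.inl h
    · exact Or.inr ⟨h1, h2⟩

theorem mat (hHall : HallStmt) (hMd : MdStmt) (hLab : LabStmt) : MatStmt := by
  classical
  intro V _ σ a B ω R Us Zp Zm k0 w Hb lam β s1 s2 ha hC hk0 hw hlam hβ hs2 hs1 hdeg hUs hG hHC
  obtain ⟨-, -, hfe, -, -⟩ := hLab V σ a B ω ha hC
  set L := FL B ω with hL
  set Et := ET B ω with hEt
  set Eh := EH B ω with hEh
  set Q := qd R σ with hQ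
  have hLEt : Disjoint L Et := by
    rw [Set.disjoint_left]
    rintro p ⟨h1, -⟩ ⟨h2, -⟩
    exact hfe _ h1 h2
  have hLEh : Disjoint L Eh := by
    rw [Set.disjoint_left]
    rintro p ⟨h1, -⟩ ⟨h2, -⟩
    exact hfe _ h1 h2
  -- one tail node and one head node for each vertex
  have htail : ∀ p ∈ L ∪ Et, tl B ω p.1 = p.2 := by
    rintro p (⟨-, h⟩ | ⟨-, h⟩) <;> exact h
  have hhead : ∀ p ∈ L ∪ Eh, ∀ p' ∈ L ∪ Eh, p.1 = p'.1 → p = p' := by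
    rintro p (⟨h1, h2⟩ | ⟨h1, h2⟩) p' (⟨h3, h4⟩ | ⟨h3, h4⟩) h
    · exact Prod.ext h (by rw [← h2, ← h4, h])
    · exact absurd h3 (by rw [← h]; exact hfe _ h1)
    · exact absurd h1 (by rw [h]; exact hfe _ h3)
    · exact Prod.ext h (by rw [← h2, ← h4, h])
  set H : Set ((V × Lab) × (V × Lab)) :=
    {z | z.2 ∈ ow Q 1 z.1 ∧ z.1 ∈ L ∪ Et ∧ z.2 ∈ L ∪ Eh ∧ (z.1.1, σ z.2.1) ∉ Us} with hH
  have hs : 0 < s1 - Hb := sub_pos.mpr hs1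
  -- non-neighbours
  have hn1 : ∀ p ∈ L ∪ Et, ((ow Q 1 p ∩ (L ∪ Eh)) \ out H p).ncard ≤ Hb := by
    intro p hp
    refine le_trans ?_ (hUs p.1).1
    refine Set.ncard_le_ncard_of_injOn (fun p' => σ p'.1) ?_ ?_ (Set.toFinite _)
    · rintro p' ⟨⟨h1, h2⟩, h3⟩
      by_contra h4
      exact h3 ⟨h1, hp, h2, h4⟩
    · rintro p' ⟨⟨-, h2⟩, -⟩ p'' ⟨⟨-, h2'⟩, -⟩ h
      exact hhead _ h2 _ h2' (σ.injective h)
  have hn2 : ∀ p ∈ L ∪ Eh, ((ow (rv Q) (-1) p ∩ (L ∪ Et)) \ out (rv H) p).ncard ≤ Hb := by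
    intro p hp
    refine le_trans ?_ (hUs (σ p.1)).2
    refine Set.ncard_le_ncard_of_injOn (fun p' => p'.1) ?_ ?_ (Set.toFinite _)
    · rintro p' ⟨⟨h1, h2⟩, h3⟩
      by_contra h4
      exact h3 ⟨mem_ow_rv.mp h1, h2, hp, h4⟩
    · rintro p' ⟨⟨-, h2⟩, -⟩ p'' ⟨⟨-, h2'⟩, -⟩ h
      refine Prod.ext h ?_
      rw [← htail _ h2, ← htail _ h2']
      exact congrArg _ h
  -- the sinks
  set Z1 : Set (V × Lab) := {p | p ∈ L ∧ p.1 ∈ Zp} with hZ1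
  set Z2 : Set (V × Lab) := {p | p ∈ L ∧ σ p.1 ∈ Zm} with hZ2
  have hs1' : ∀ p ∈ L ∪ Et, s1 - Hb ≤ ((out H p ∩ Z1).ncard : ℝ) := by
    intro p hp
    have h1 := hG.sf p
    have h2 : (ow (qd R σ) 1 p ∩ FL B ω ∩ {p' | p'.1 ∈ Zp}).ncard ≤
        (out H p ∩ Z1).ncard + Hb := by
      refine le_trans ?_ (Nat.add_le_add_left (hn1 p hp) _)
      refine le_trans (Set.ncard_le_ncard ?_ (Set.toFinite _)) (Set.ncard_union_le _ _)
      rintro p' ⟨⟨h3, h4⟩, h5⟩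
      by_cases h6 : p' ∈ out H p
      · exact Or.inl ⟨h6, h4, h5⟩
      · exact Or.inr ⟨⟨h3, Or.inl h4⟩, h6⟩
    have h3 : ((ow (qd R σ) 1 p ∩ FL B ω ∩ {p' | p'.1 ∈ Zp}).ncard : ℝ) ≤
        (out H p ∩ Z1).ncard + Hb := by exact_mod_cast h2
    linarith
  have hs2' : ∀ p ∈ L ∪ Eh, s1 - Hb ≤ ((out (rv H) p ∩ Z2).ncard : ℝ) := by
    intro p hp
    have h1 := hG.sr p
    have h2 : (ow (rv (qd R σ)) (-1) p ∩ FL B ω ∩ {p' | σ p'.1 ∈ Zm}).ncard ≤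
        (out (rv H) p ∩ Z2).ncard + Hb := by
      refine le_trans ?_ (Nat.add_le_add_left (hn2 p hp) _)
      refine le_trans (Set.ncard_le_ncard ?_ (Set.toFinite _)) (Set.ncard_union_le _ _)
      rintro p' ⟨⟨h3, h4⟩, h5⟩
      by_cases h6 : p' ∈ out (rv H) p
      · exact Or.inl ⟨h6, h4, h5⟩
      · exact Or.inr ⟨⟨h3, Or.inl h4⟩, h6⟩
    have h3 : ((ow (rv (qd R σ)) (-1) p ∩ FL B ω ∩ {p' | σ p'.1 ∈ Zm}).ncard : ℝ) ≤
        (out (rv H) p ∩ Z2).ncard + Hb := by exact_mod_cast h2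
    linarith
  have hd1 : ∀ p ∈ Z1, ((inn H p).ncard : ℝ) ≤ s2 := by
    intro p _
    refine le_trans ?_ (hG.df p)
    refine Nat.cast_le.mpr (Set.ncard_le_ncard ?_ (Set.toFinite _))
    rintro p' ⟨h1, h2, -, -⟩
    exact ⟨mem_ow_rv.mpr h1, h2⟩
  have hd2 : ∀ p ∈ Z2, ((inn (rv H) p).ncard : ℝ) ≤ s2 := by
    intro p _
    refine le_trans ?_ (hG.dr p)
    refine Nat.cast_le.mpr (Set.ncard_le_ncard ?_ (Set.toFinite _))
    rintro p' ⟨h1, -, h2, -⟩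
    exact ⟨h1, h2⟩
  have hall1 := hHall V Q 1 k0 w Hb lam (rr a) β (s1 - Hb) s2 L Et Eh Z1 H (Or.inl rfl) hk0 hw
    hlam (rr_pos a) hβ hs hs2
    (fun x => ⟨by rw [out_qd_ncard]; exact (hdeg x).1, by rw [out_qd_ncard]; exact (hdeg x).2.1,
      by rw [inn_qd]; exact (hdeg (σ x)).2.2.2⟩)
    hLEt hLEh (fun p h => h.1) hG.nf (fun z hz => ⟨hz.1, hz.2.1, hz.2.2.1⟩) hn1 hs1' hd1 hHC
  have hall2 := hHall V (rv Q) (-1) k0 w Hb lam (rr a) β (s1 - Hb) s2 L Eh Et Z2 (rv H)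
    (Or.inr rfl) hk0 hw hlam (rr_pos a) hβ hs hs2
    (fun x => ⟨by rw [out_rv_qd]; exact (hdeg (σ x)).2.2.1,
      by rw [out_rv_qd]; exact (hdeg (σ x)).2.2.2,
      by rw [inn_rv_qd, out_qd_ncard]; exact (hdeg x).2.1⟩)
    hLEh hLEt (fun p h => h.1) hG.nr
    (fun z hz => ⟨mem_ow_rv.mpr hz.1, hz.2.2.1, hz.2.1⟩) hn2 hs2' hd2 hHC
  obtain ⟨M1, hM1, hX, hM1H⟩ := hallPI ((L ∪ Et) \ Z1) L H hall1
  obtain ⟨M2, hM2, hY, hM2H⟩ := hallPI ((L ∪ Eh) \ Z2) L (rv H) hall2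
  obtain ⟨M, hMs, hM, hXM, hYM⟩ := hMd (V × Lab) (V × Lab) M1 (rv M2) ((L ∪ Et) \ Z1)
    ((L ∪ Eh) \ Z2) hM1 ⟨fun x y y' h h' => hM2.2 _ _ _ h h', fun x x' y h h' => hM2.1 _ _ _ h h'⟩
    hX (fun y hy => by
      obtain ⟨x, hx⟩ := hY hy
      exact ⟨x, hx⟩)
  have key : ∀ z ∈ H, (z.1 ∈ FL B ω ∪ ET B ω ∧ z.2 ∈ FL B ω ∪ EH B ω ∧
      (z.1.1, σ z.2.1) ∈ R \ Us ∧ (z.2.2 = z.1.2 + 1 ∨ z.2.2 = z.1.2 + 2)) := by
    rintro z ⟨h1, h2, h3, h4⟩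
    refine ⟨h2, h3, ⟨h1.1, h4⟩, ?_⟩
    rcases h1.2 with h | h
    · exact Or.inl h
    · exact Or.inr (by rw [h, mul_one])
  refine ⟨M, hM, ?_, ?_, ?_⟩
  · intro z hz
    rcases hMs hz with h | h
    · rcases hM1H z h with h1 | h1
      · exact Or.inr (key z h1)
      · exact Or.inl h1
    · have h' : (z.2, z.1) ∈ M2 := h
      rcases hM2H _ h' with h1 | ⟨h1, h2⟩
      · exact Or.inr (key z h1)
      · simp only at h1 h2
        exact Or.inl ⟨h1.symm, by rw [← h1]; exact h2⟩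
  · intro p hp hpd
    by_contra hc
    refine hpd (hXM ⟨hp, fun h => hc ?_⟩)
    exact h
  · intro p hp hpd
    by_contra hc
    refine hpd (hYM ⟨hp, fun h => hc ?_⟩)
    exact h

end Pool.Agent.LPY.H32
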